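import Pool.Agent.helper77.BND.SpecB

set_option autoImplicit false

open scoped Topology Matrix
open Filter Finset

namespace Pool.Agent.BND

open Pool.Agent.CZ Pool.Agent.PV

lemma BRM_cast (h : List (ℕ × ℝ)) (σ : ℕ → ℝ → ℤ) :
    ((sw σ h : ℤ) : ℂ) = sw (fun e s => ((σ e s : ℤ) : ℂ)) h := by
  unfold sw
  induction h with
  | nil => simp
  | cons a l ih =>
    simp only [List.map_cons, List.sum_cons, Int.cast_add]
    rw [ih]

lemma BRM_congr {Z : Type} [AddCommMonoid Z] (l : List (ℕ × ℝ)) (σ σ' : ℕ → ℝ → Z)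
    (h : ∀ a ∈ l, σ a.1 a.2 = σ' a.1 a.2) : sw σ l = sw σ' l := by
  unfold sw
  rw [List.map_congr_left h]

theorem BRM (hWSM : WSM_stmt) (hBFG : BFG_stmt) (hBFE : BFE_stmt) (hXSU : XSU_stmt)
    (hSTN : STN_stmt) (hK0G : K0G_stmt) : BRM_stmt := by
  classical
  intro B M _ α A _ ι u c hC S hS m R R' hR hR' h w v' hv'
  have hB := hC.bs
  have hv'N : v' < (B.L (m + 1)).N := lt_of_lt_of_le hv' (hB.lv (m + 1)).nN
  have h0U : (0 : ℝ) ∈ U := ⟨le_rfl, zero_le_one⟩
  have key : ∀ (κ : Type) [Fintype κ] (E : Matrix κ κ (S m)) (hE : E * E = E),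
      R' (k0map (Subalgebra.inclusion h).toRingHom (k0 E hE)) v' =
        ∑ v ∈ range (B.L m).n, (M m v' v : ℤ) * R (k0 E hE) v := by
    intro κ _ E hE
    have hin : ∀ a b, InS B ι u c m (E a b : A) := fun a b => (hS.mem m _).1 (E a b).2
    have hin' : ∀ a b, InS B ι u c (m + 1) (E a b : A) :=
      fun a b => (hS.mem (m + 1) _).1 (h (E a b).2)
    choose G hG1 hG2 using fun a b => hBFG B M α A ι u c hC m (E a b : A) (hin a b)
    choose G' hG1' hG2' using fun a b => hBFG B M α A ι u c hC (m + 1) (E a b : A) (hin' a b)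
    have hE' : E.map (Subalgebra.inclusion h).toRingHom * E.map (Subalgebra.inclusion h).toRingHom =
        E.map (Subalgebra.inclusion h).toRingHom := by
      have h1 := congrArg ((Subalgebra.inclusion h).toRingHom.mapMatrix) hE
      rw [map_mul] at h1
      exact h1
    rw [k0map_k0 _ E hE hE']
    have r1 := hR'.1 κ (E.map (Subalgebra.inclusion h).toRingHom) hE' G' (fun a b => hG2' a b) v' 0
      hv'N h0U
    rw [(hB.lv (m + 1)).vtx v' hv' false] at r1
    simp only [List.map_cons, List.map_nil, List.sum_cons, List.sum_nil, add_zero] at r1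
    -- the trace function
    obtain ⟨T, hT⟩ : ∃ T : Am → ℂ, ∀ x : ↥(XS B), T (x.1 m) = ∑ a, c 0 (E a a : A) x := by
      refine ⟨fun y => if hy : ∃ x : ↥(XS B), x.1 m = y then ∑ a, c 0 (E a a : A) hy.choose else 0,
        ?_⟩
      intro x
      have hy : ∃ x' : ↥(XS B), x'.1 m = x.1 m := ⟨x, rfl⟩
      show (if hy : ∃ x' : ↥(XS B), x'.1 m = x.1 m then ∑ a, c 0 (E a a : A) hy.choose else 0) = _
      rw [dif_pos hy]
      exact Finset.sum_congr rfl fun a _ => (hin a a).lev 0 _ _ hy.choose_spec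
    have hemb : ∀ e s i, e < (B.L m).N → s ∈ U → i < (B.L m).h e →
        T (emb (B.L m) e s i) = ∑ a, G a a e s i i := by
      intro e s i he hs hi
      obtain ⟨x, hx⟩ := hXSU B M hB m (emb (B.L m) e s i) ⟨e, s, i, he, hs, hi, rfl⟩
      rw [← hx, hT x]
      refine Finset.sum_congr rfl fun a _ => ?_
      rw [hG2 a a x e s i he hs hi hx 0, if_pos (by omega)]
      simp
    have hst : ∀ i, i < (B.L (m + 1)).h v' →
        T (fw (B.L m).h (emb (B.L m)) (B.w m v' 0) i) = ∑ a, G' a a v' 0 i i := by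
      intro i hi
      obtain ⟨x, hx⟩ := hXSU B M hB (m + 1) (emb (B.L (m + 1)) v' 0 i) ⟨v', 0, i, hv'N, h0U, hi, rfl⟩
      have h1 : x.1 m = fw (B.L m).h (emb (B.L m)) (B.w m v' 0) i :=
        (x.2 m).2 v' 0 i hv'N h0U hi hx
      rw [← h1, hT x]
      refine Finset.sum_congr rfl fun a _ => ?_
      rw [hG2' a a x v' 0 i hv'N h0U hi hx 0, if_pos (by omega)]
      simp
    have hht := hB.htw m v' 0 hv'N h0U
    have hw := hWSM (B.L m).h (B.w m v' 0) Am (emb (B.L m)) ℂ T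
    rw [hht] at hw
    have h2 : ∑ i ∈ range ((B.L (m + 1)).h v'),
        T (fw (B.L m).h (emb (B.L m)) (B.w m v' 0) i) =
        ∑ a, ∑ i ∈ range ((B.L (m + 1)).h v'), G' a a v' 0 i i := by
      rw [Finset.sum_comm]
      exact Finset.sum_congr rfl fun i hi => hst i (Finset.mem_range.1 hi)
    have h3 : sw (fun e s => ∑ i ∈ range ((B.L m).h e), T (emb (B.L m) e s i)) (B.w m v' 0) =
        sw (fun e _ => (((((B.L m).W e false).map (R (k0 E hE))).sum : ℤ) : ℂ)) (B.w m v' 0) := by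
      refine BRM_congr _ _ _ fun a ha => ?_
      obtain ⟨ha1, ha2⟩ := hB.lett m v' 0 hv'N h0U a ha
      rw [← hR.1 κ E hE G (fun a b => hG2 a b) a.1 a.2 ha1 ha2, Finset.sum_comm]
      exact Finset.sum_congr rfl fun i hi => hemb a.1 a.2 i ha1 ha2 (Finset.mem_range.1 hi)
    have h4 := hB.cnt m v' (R (k0 E hE)) hv'
    have h5 : ((R' (k0 (E.map (Subalgebra.inclusion h).toRingHom) hE') v' : ℤ) : ℂ) =
        ((∑ v ∈ range (B.L m).n, (M m v' v : ℤ) * R (k0 E hE) v : ℤ) : ℂ) := by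
      rw [← r1, ← h2, hw, h3, ← h4, BRM_cast]
    exact_mod_cast h5
  -- the additive extension
  obtain ⟨Δ, hΔ⟩ : ∃ Δ : K0 (S m) →+ ℤ, ∀ z, Δ z =
      R' (k0map (Subalgebra.inclusion h).toRingHom z) v' -
        ∑ v ∈ range (B.L m).n, (M m v' v : ℤ) * R z v := by
    refine ⟨AddMonoidHom.mk' (fun z => R' (k0map (Subalgebra.inclusion h).toRingHom z) v' -
        ∑ v ∈ range (B.L m).n, (M m v' v : ℤ) * R z v) ?_, fun z => rfl⟩
    intro y z
    simp only [map_add, Pi.add_apply, mul_add, Finset.sum_add_distrib]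
    ring
  have hk : ∀ (n : ℕ) (e : Matrix (Fin n) (Fin n) (S m)) (he : e * e = e), Δ (k0 e he) = 0 := by
    intro n e he
    rw [hΔ, key (Fin n) e he, sub_self]
  have hu : Δ (unitCls (S m)) = 0 := by
    obtain ⟨n, k, e, he, h1⟩ := hK0G (S m) (unitCls (S m))
    have h2 := congrArg Δ h1
    rw [map_sub, hk, map_nsmul, zero_sub, nsmul_eq_mul] at h2
    have h3 : ((k : ℤ) + 1) * Δ (unitCls (S m)) = 0 := by linarith
    rcases mul_eq_zero.1 h3 with h4 | h4
    · exfalso
      omega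
    · exact h4
  obtain ⟨n, k, e, he, h1⟩ := hK0G (S m) w
  have h2 : Δ w = 0 := by
    rw [h1, map_sub, hk, map_nsmul, hu, smul_zero, sub_zero]
  rw [hΔ] at h2
  linarith

end Pool.Agent.BND
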