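import Pool.Agent.helper77.BND.SpecD

set_option autoImplicit false

open scoped Topology
open Finset

namespace Pool.Agent.BND

open Pool.Agent.CZ Pool.Agent.PV

lemma STN_cons {Z : Type} [Zero Z] (h : ℕ → ℕ) (Φ : ℕ → ℝ → ℕ → Z) (a : ℕ × ℝ)
    (Q : List (ℕ × ℝ)) (k : ℕ) (hk : k < h a.1) : fw h Φ (a :: Q) k = Φ a.1 a.2 k := by
  show (if k < h a.1 then Φ a.1 a.2 k else fw h Φ Q (k - h a.1)) = _
  rw [if_pos hk]

lemma STN_cons2 {Z : Type} [Zero Z] (h : ℕ → ℕ) (Φ : ℕ → ℝ → ℕ → Z) (a : ℕ × ℝ)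
    (Q : List (ℕ × ℝ)) (k : ℕ) : fw h Φ (a :: Q) (h a.1 + k) = fw h Φ Q k := by
  show (if h a.1 + k < h a.1 then Φ a.1 a.2 (h a.1 + k) else fw h Φ Q (h a.1 + k - h a.1)) = _
  rw [if_neg (by omega), Nat.add_sub_cancel_left]

lemma STN_hw (h : ℕ → ℕ) (a : ℕ × ℝ) (Q : List (ℕ × ℝ)) : hw h (a :: Q) = h a.1 + hw h Q := by
  unfold hw
  simp

theorem STN (hWDC : WDC_stmt) (hWAP : WAP_stmt) : STN_stmt := by
  intro B M hB m e s i he hs hi
  have hht := hB.htw m e s he hs
  have hl := hB.lett m e s he hs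
  have hpos : ∀ a ∈ B.w m e s, 0 < (B.L m).h a.1 := by
    intro a ha
    have := hB.big m a.1 (hl a ha).1
    omega
  obtain ⟨P, a, Q, j, hw1, hj, hij, -⟩ := hWDC (B.L m).h (B.w m e s) i (by rw [hht]; exact hi)
  have haw : a ∈ B.w m e s := by rw [hw1]; simp
  have hsum : hw (B.L m).h P + ((B.L m).h a.1 + hw (B.L m).h Q) = (B.L (m + 1)).h e := by
    rw [← hht, hw1, (hWAP (B.L m).h P (a :: Q)).1, STN_hw]
  have hfw : ∀ (Z : Type) [Zero Z] (Φ : ℕ → ℝ → ℕ → Z) (k : ℕ), k < (B.L m).h a.1 →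
      fw (B.L m).h Φ (B.w m e s) (hw (B.L m).h P + k) = Φ a.1 a.2 k := by
    intro Z _ Φ k hk
    rw [hw1, ((hWAP (B.L m).h P (a :: Q)).2 Z Φ k).2, STN_cons _ _ _ _ _ hk]
  refine ⟨a, j, hw (B.L m).h P, haw, (hl a haw).1, (hl a haw).2, hj, hij, by omega, ?_, ?_, ?_, ?_,
    ?_, ?_⟩
  · intro k hk
    exact hfw Am (emb (B.L m)) k hk
  · intro k d hkd r hr
    subst hkd
    exact hfw Am (B.lp k d) r hr
  · intro h0
    have hP : P = [] := by
      cases P with
      | nil => rfl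
      | cons b P' =>
        exfalso
        rw [STN_hw] at h0
        have := hpos b (by rw [hw1]; simp)
        omega
    have h1 := hB.bot m e s he hs
    rw [hw1, hP] at h1
    simpa using h1
  · intro h0
    obtain rfl | ⟨P', b, rfl⟩ := List.eq_nil_or_concat' P
    · simp [hw] at h0
    · have hb : b ∈ B.w m e s := by rw [hw1]; simp
      have hbp := hpos b hb
      refine ⟨b, (hl b hb).1, (hl b hb).2, ?_⟩
      have h2 : hw (B.L m).h (P' ++ [b]) - 1 = hw (B.L m).h P' + ((B.L m).h b.1 - 1) := by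
        rw [(hWAP (B.L m).h P' [b]).1, STN_hw]
        have : hw (B.L m).h [] = 0 := by simp [hw]
        omega
      show fw (B.L m).h (emb (B.L m)) (B.w m e s) (hw (B.L m).h (P' ++ [b]) - 1) = _
      rw [h2, hw1, List.append_assoc, ((hWAP (B.L m).h P' ([b] ++ a :: Q)).2 Am _ _).2]
      exact STN_cons _ _ _ _ _ (by omega)
  · intro h0
    have hQ : Q = [] := by
      cases Q with
      | nil => rfl
      | cons b Q' =>
        exfalso
        rw [STN_hw] at hsum
        have := hpos b (by rw [hw1]; simp)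
        omega
    have h1 := hB.top m e s he hs
    rw [hw1, hQ] at h1
    simpa using h1
  · intro h0
    cases Q with
    | nil =>
      exfalso
      have : hw (B.L m).h [] = 0 := by simp [hw]
      omega
    | cons b Q' =>
      have hb : b ∈ B.w m e s := by rw [hw1]; simp
      have hbp := hpos b hb
      refine ⟨b, (hl b hb).1, (hl b hb).2, ?_⟩
      show fw (B.L m).h (emb (B.L m)) (B.w m e s) (hw (B.L m).h P + (B.L m).h a.1) = _
      rw [hw1, ((hWAP (B.L m).h P (a :: b :: Q')).2 Am _ _).2]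
      have := STN_cons2 (B.L m).h (emb (B.L m)) a (b :: Q') 0
      rw [Nat.add_zero] at this
      rw [this]
      exact STN_cons _ _ _ _ _ hbp

end Pool.Agent.BND
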